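import Pool.Agent.H541.T1.Near

set_option autoImplicit false

/-!
# The orbits of the real solutions of `x ^ 2 - 2 y ^ 2 = -1`

The real solutions with `y > 0` are the points with `x + y √2 = t`, `t > 0`.  The automorph
`(x, y) ↦ (3 x + 4 y, 2 x + 3 y)` of the equation maps `(X t k, Y t k)` to `(X t (k+1), Y t (k+1))`, and the
orbit of `t = 1 + √2`, i.e. of the point `(1, 1)`, is the sequence `(p_k, r_k)` of the problem.
-/

namespace Pool.Agent.Results.MP_927e73_nt.RealOrbitsFullDimension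

open Filter Topology
open Pool.Agent.H541.T1

/-- the first coordinate of the `k`-th point of the orbit -/
noncomputable def X (t : ℝ) (k : ℕ) : ℝ := (t * (3 + 2 * √2) ^ k - (t * (3 + 2 * √2) ^ k)⁻¹) / 2

/-- the second coordinate of the `k`-th point of the orbit -/
noncomputable def Y (t : ℝ) (k : ℕ) : ℝ := (t * (3 + 2 * √2) ^ k + (t * (3 + 2 * √2) ^ k)⁻¹) / (2 * √2)

lemma s2 : √(2 : ℝ) * √2 = 2 := Real.mul_self_sqrt (by norm_num)

lemma s0 : (0 : ℝ) < √2 := by positivity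

lemma s1 : (1 : ℝ) ≤ √2 := by
  rw [Real.one_le_sqrt]
  norm_num

lemma part0 (x y : ℝ) (h : x ^ 2 - 2 * y ^ 2 = -1) (hy : 0 < y) :
    0 < x + y * √2 ∧ X (x + y * √2) 0 = x ∧ Y (x + y * √2) 0 = y := by
  have h1 := s2
  have h2 := s0
  have h3 : (x + y * √2) * (y * √2 - x) = 1 := by
    have : (x + y * √2) * (y * √2 - x) = y ^ 2 * (√2 * √2) - x ^ 2 := by ring
    rw [this, h1]
    linarith
  have h4 : 0 < (x + y * √2) + (y * √2 - x) := by
    have : (x + y * √2) + (y * √2 - x) = 2 * (y * √2) := by ring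
    rw [this]
    positivity
  have h5 : 0 < x + y * √2 := by
    by_contra hcon
    push Not at hcon
    have h6 : 0 < y * √2 - x := by linarith
    nlinarith
  have h6 : (x + y * √2)⁻¹ = y * √2 - x := by
    exact (eq_inv_of_mul_eq_one_right h3).symm
  refine ⟨h5, ?_, ?_⟩
  · unfold X
    rw [pow_zero, mul_one, h6]
    ring
  · unfold Y
    rw [pow_zero, mul_one, h6]
    field_simp
    ring

lemma part1 (t : ℝ) (ht : 0 < t) (k : ℕ) : X t k ^ 2 - 2 * Y t k ^ 2 = -1 ∧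
    X t (k + 1) = 3 * X t k + 4 * Y t k ∧ Y t (k + 1) = 2 * X t k + 3 * Y t k := by
  have h1 := s2
  have h2 := s0
  have h3 : (0 : ℝ) < 3 + 2 * √2 := by positivity
  obtain ⟨s, hs⟩ : ∃ s : ℝ, s = t * (3 + 2 * √2) ^ k := ⟨_, rfl⟩
  have hs0 : 0 < s := by
    rw [hs]
    positivity
  have h4 : (3 + 2 * √2)⁻¹ = 3 - 2 * √2 := by
    symm
    apply eq_inv_of_mul_eq_one_right
    linear_combination -4 * h1
  have h5 : t * (3 + 2 * √2) ^ (k + 1) = s * (3 + 2 * √2) := by
    rw [hs, pow_succ]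
    ring
  have h6 : (t * (3 + 2 * √2) ^ (k + 1))⁻¹ = s⁻¹ * (3 - 2 * √2) := by
    rw [h5, mul_inv, h4]
  obtain ⟨i, hi⟩ : ∃ i : ℝ, i = s⁻¹ := ⟨_, rfl⟩
  have hsi : s * i = 1 := by
    rw [hi]
    exact mul_inv_cancel₀ hs0.ne'
  have hX : X t k = (s - i) / 2 := by
    unfold X
    rw [← hs, hi]
  have hY : Y t k = (s + i) * √2 / 4 := by
    unfold Y
    rw [← hs, ← hi]
    field_simp
    linear_combination (s + i) * (-2 * h1)
  have hX1 : X t (k + 1) = (s * (3 + 2 * √2) - i * (3 - 2 * √2)) / 2 := by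
    unfold X
    rw [h6, h5, hi]
  have hY1 : Y t (k + 1) = (s * (3 + 2 * √2) + i * (3 - 2 * √2)) * √2 / 4 := by
    unfold Y
    rw [h6, h5, ← hi]
    field_simp
    linear_combination (s * (3 + 2 * √2) + i * (3 - 2 * √2)) * (-2 * h1)
  rw [hX, hY, hX1, hY1]
  refine ⟨?_, ?_, ?_⟩
  · linear_combination (-(s + i) ^ 2 / 8) * h1 - hsi
  · ring
  · linear_combination ((s - i) / 2) * h1

lemma part2 (k : ℕ) : ∃ p r : ℕ, X (1 + √2) k = p ∧ Y (1 + √2) k = r ∧
    (p : ℤ) ^ 2 - 2 * (r : ℤ) ^ 2 = -1 ∧ (p : ℝ) + r * √2 = (1 + √2) ^ (2 * k + 1) := by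
  have h1 := s2
  have h2 := s0
  induction k with
  | zero =>
    have h3 := part0 1 1 (by norm_num) (by norm_num)
    rw [one_mul] at h3
    refine ⟨1, 1, ?_, ?_, by norm_num, by norm_num⟩
    · rw [h3.2.1]
      norm_num
    · rw [h3.2.2]
      norm_num
  | succ k ih =>
    obtain ⟨p, r, e1, e2, e3, e4⟩ := ih
    obtain ⟨-, e5, e6⟩ := part1 (1 + √2) (by positivity) k
    refine ⟨3 * p + 4 * r, 2 * p + 3 * r, ?_, ?_, ?_, ?_⟩
    · rw [e5, e1, e2]
      push_cast
      ring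
    · rw [e6, e1, e2]
      push_cast
      ring
    · push_cast
      linear_combination e3
    · have e7 : (1 + √2) ^ (2 * (k + 1) + 1) = (1 + √2) ^ (2 * k + 1) * (1 + √2) ^ 2 := by
        rw [← pow_add]
        congr 1
      rw [e7, ← e4]
      push_cast
      linear_combination (-(p : ℝ) - 2 * r - r * √2) * h1

/-- the two main terms -/
noncomputable def lam (b : Bool) (k : ℕ) : ℝ :=
  if b then (3 + 2 * √2) ^ k / 2 else (3 + 2 * √2) ^ k / (2 * √2)

lemma lam_pos (b : Bool) (k : ℕ) : 0 < lam b k := by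
  have h2 := s0
  unfold lam
  split_ifs <;> positivity

lemma lam_succ (b : Bool) (k : ℕ) : lam b (k + 1) = (3 + 2 * √2) * lam b k := by
  unfold lam
  split_ifs <;> ring

lemma lam_dbl (b : Bool) (k : ℕ) : 2 * lam b k ≤ lam b (k + 1) := by
  rw [lam_succ]
  have h1 := lam_pos b k
  have h2 := s0
  nlinarith

/-- the two coordinates -/
noncomputable def F (b : Bool) (t : ℝ) (k : ℕ) : ℝ := if b then X t k else Y t k

lemma close8 (b : Bool) (t : ℝ) (ht : 0 < t) : ∀ᶠ k in atTop, |F b t k - t * lam b k| ≤ 1 / 8 := by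
  have h1 : Tendsto (fun k : ℕ => (t * (3 + 2 * √2) ^ k)) atTop atTop :=
    (tendsto_pow_atTop_atTop_of_one_lt (by have := s0; linarith)).const_mul_atTop ht
  filter_upwards [h1.eventually_ge_atTop 8] with k hk
  have h2 : (t * (3 + 2 * √2) ^ k)⁻¹ ≤ 1 / 8 := by
    rw [inv_le_comm₀ (by linarith) (by norm_num)]
    norm_num
    exact hk
  have h3 : 0 < (t * (3 + 2 * √2) ^ k)⁻¹ := by
    apply inv_pos.2
    linarith
  have h4 := s1
  unfold F lam
  split_ifs
  · have h5 : X t k - t * ((3 + 2 * √2) ^ k / 2) = -((t * (3 + 2 * √2) ^ k)⁻¹ / 2) := by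
      unfold X
      ring
    rw [h5, abs_neg, abs_of_pos (by linarith)]
    linarith
  · have h5 : Y t k - t * ((3 + 2 * √2) ^ k / (2 * √2)) = (t * (3 + 2 * √2) ^ k)⁻¹ / (2 * √2) := by
      unfold Y
      ring
    rw [h5, abs_of_pos (by positivity), div_le_iff₀ (by positivity)]
    linarith

/-- **Main theorem.** First, `(X t k, Y t k)` are the orbits of the real solutions of
`x ^ 2 - 2 y ^ 2 = -1` with `y > 0` under the automorph, and `t = 1 + √2` gives the solutions of the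
problem.  (1) In every interval of positive `t`, the set of the `t` for which all integers at distance at
most `η log k` from one of the two coordinates of the `k`-th point are composite, with a prime factor at
most `exp (k ^ ε)`, for all large `k`, has Hausdorff dimension one.  (2) So has the set of
the `t` for which, for all integers `h` and `W`, `⌊X t k⌋ + h` and `⌊Y t k⌋ + h` have prime factors
between `W` and `z k` for all large `k`, where `z` tends to infinity arbitrarily slowly.  (3) The set of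
the `t` for which for all large `k` one of `⌊X t k⌋`, `⌊Y t k⌋` has a prime factor at most `Z` has
dimension less than one. -/
theorem result :
    (∀ x y : ℝ, x ^ 2 - 2 * y ^ 2 = -1 → 0 < y →
      0 < x + y * √2 ∧ X (x + y * √2) 0 = x ∧ Y (x + y * √2) 0 = y) ∧
    (∀ t : ℝ, 0 < t → ∀ k : ℕ, X t k ^ 2 - 2 * Y t k ^ 2 = -1 ∧
      X t (k + 1) = 3 * X t k + 4 * Y t k ∧ Y t (k + 1) = 2 * X t k + 3 * Y t k) ∧
    (∀ k : ℕ, ∃ p r : ℕ, X (1 + √2) k = p ∧ Y (1 + √2) k = r ∧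
      (p : ℤ) ^ 2 - 2 * (r : ℤ) ^ 2 = -1 ∧ (p : ℝ) + r * √2 = (1 + √2) ^ (2 * k + 1)) ∧
    (∀ ε : ℝ, 0 < ε → ∃ η : ℝ, 0 < η ∧ ∀ u v : ℝ, 0 ≤ u → u < v →
      dimH {t : ℝ | t ∈ Set.Ioo u v ∧ ∀ᶠ k : ℕ in atTop, ∀ a : ℤ,
        (|(a : ℝ) - X t k| ≤ η * Real.log k ∨ |(a : ℝ) - Y t k| ≤ η * Real.log k) →
        ∃ p : ℕ, p.Prime ∧ (p : ℝ) ≤ Real.exp ((k : ℝ) ^ ε) ∧ (p : ℤ) ∣ a ∧ (p : ℤ) < a} = 1) ∧
    (∀ z : ℕ → ℝ, Tendsto z atTop atTop → ∀ u v : ℝ, 0 ≤ u → u < v →
      dimH {t : ℝ | t ∈ Set.Ioo u v ∧ ∀ (h : ℤ) (W : ℕ), ∀ᶠ k : ℕ in atTop,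
        (∃ p : ℕ, p.Prime ∧ W < p ∧ (p : ℝ) ≤ z k ∧ (p : ℤ) ∣ ⌊X t k⌋ + h) ∧
        (∃ p : ℕ, p.Prime ∧ W < p ∧ (p : ℝ) ≤ z k ∧ (p : ℤ) ∣ ⌊Y t k⌋ + h)} = 1) ∧
    (∀ Z : ℕ, dimH {t : ℝ | 0 < t ∧ ∀ᶠ k : ℕ in atTop, ∃ p : ℕ, p.Prime ∧ p ≤ Z ∧
      ((p : ℤ) ∣ ⌊X t k⌋ ∨ (p : ℤ) ∣ ⌊Y t k⌋)} < 1) := by
  refine ⟨part0, part1, part2, ?_, ?_, ?_⟩
  · intro ε hε
    obtain ⟨η, hη0, hη⟩ := near_comp ε hε lam (fun b => dbl_sparse _ (lam_dbl b) (lam_pos b))
      (fun b => dbl_tendsto _ (lam_dbl b) (lam_pos b)) (fun b => dbl_grow _ (lam_dbl b) (lam_pos b))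
      (fun b => grow_up _ (lam_pos b) (3 + 2 * √2) (fun k => (lam_succ b k).le))
    refine ⟨min (η true) (η false), lt_min (hη0 _) (hη0 _), fun u v hu huv => ?_⟩
    apply le_antisymm
    · calc dimH _ ≤ dimH (Set.univ : Set ℝ) := dimH_mono (Set.subset_univ _)
        _ = 1 := Real.dimH_univ
    rw [← hη F (fun _ => 1 / 8) close8 u v hu huv]
    apply dimH_mono
    rintro t ⟨ht, h⟩
    refine ⟨ht, ?_⟩
    filter_upwards [h true, h false] with k h1 h2 a ha
    have h0 : 0 ≤ Real.log k := Real.log_natCast_nonneg k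
    rcases ha with ha | ha
    · refine h1 a (ha.trans ?_)
      gcongr
      exact min_le_left _ _
    · refine h2 a (ha.trans ?_)
      gcongr
      exact min_le_right _ _
  · intro z hz u v hu huv
    apply le_antisymm
    · calc dimH _ ≤ dimH (Set.univ : Set ℝ) := dimH_mono (Set.subset_univ _)
        _ = 1 := Real.dimH_univ
    rw [← near_fam lam (fun _ => z) (fun b => dbl_sparse _ (lam_dbl b) (lam_pos b))
      (fun b => dbl_tendsto _ (lam_dbl b) (lam_pos b)) (fun _ => hz) F (fun _ => 1 / 8) close8 u v hu huv]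
    apply dimH_mono
    rintro t ⟨ht, h⟩
    refine ⟨ht, fun h0 W => ?_⟩
    filter_upwards [h true h0 W, h false h0 W] with k h1 h2
    exact ⟨h1, h2⟩
  · intro Z
    have hirr : Irrational (√2)⁻¹ := Nat.Prime.irrational_sqrt Nat.prime_two |>.inv
    have hle : |(√2)⁻¹| ≤ 1 := by
      rw [abs_of_pos (inv_pos.2 s0)]
      exact inv_le_one_of_one_le₀ s1
    have h1 := near_bounded_pair (lam true) (lam_pos true) (dbl_tendsto _ (lam_dbl true) (lam_pos true))
      (3 + 2 * √2) (fun k => (lam_succ true k).le) (√2)⁻¹ hirr hle X Y (fun t ht => close8 true t ht)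
      (fun t ht => by
        filter_upwards [close8 false t ht] with k hk
        have h2 : t * lam true k * (√2)⁻¹ = t * lam false k := by
          unfold lam
          simp only [if_true, Bool.false_eq_true, if_false]
          have := s0
          field_simp
        rw [h2]
        exact hk) Z
    exact h1

end Pool.Agent.Results.MP_927e73_nt.RealOrbitsFullDimension
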